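import Pool.Agent.H703R3.MBBody

/-!
# Invariant hypersurfaces of billiards in bodies with a rotational symmetry
-/

set_option autoImplicit false
set_option linter.all false

open Set Filter Topology
open scoped RealInnerProductSpace ContDiff

namespace Pool.Agent.R318.MB

open Pool.Agent.H703R3.MB

variable {n : ℕ}

/-- the function `‖x‖² + x_k⁴` -/
noncomputable def fi (k : Fin n) (x : Euc n) : ℝ := ‖x‖ ^ 2 + (x k) ^ 4

/-- its gradient -/
noncomputable def gi (k : Fin n) (x : Euc n) : Euc n :=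
  (2 : ℝ) • x + (4 * (x k) ^ 3) • EuclideanSpace.single k (1 : ℝ)

lemma single_inner (k : Fin n) (w : Euc n) : ⟪EuclideanSpace.single k (1 : ℝ), w⟫ = w k := by
  rw [EuclideanSpace.inner_single_left]
  simp

lemma gi_inner (k : Fin n) (x w : Euc n) : ⟪gi k x, w⟫ = 2 * ⟪x, w⟫ + 4 * (x k) ^ 3 * w k := by
  unfold gi
  rw [inner_add_left, real_inner_smul_left, real_inner_smul_left, single_inner]

lemma sq_le (k : Fin n) (x : Euc n) : (x k) ^ 2 ≤ ‖x‖ ^ 2 := by
  rw [EuclideanSpace.norm_sq_eq]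
  have := Finset.single_le_sum (f := fun i => ‖x i‖ ^ 2) (fun i _ => by positivity)
    (Finset.mem_univ k)
  simpa [Real.norm_eq_abs, sq_abs] using this

lemma contDiff_coord (k : Fin n) : ContDiff ℝ ∞ (fun x : Euc n => x k) := by
  fun_prop

theorem goodi (k : Fin n) : Good (fi k) (gi k) where
  cd := by
    unfold fi
    exact (contDiff_norm_sq ℝ).add ((contDiff_coord k).pow 4)
  line := by
    intro x w
    refine ⟨‖w‖ ^ 2 + 6 * (x k) ^ 2 * (w k) ^ 2, 4 * x k * (w k) ^ 3, (w k) ^ 4, ?_, ?_, ?_⟩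
    · have : 0 ≤ 6 * (x k) ^ 2 * (w k) ^ 2 := by positivity
      linarith
    · have : 0 ≤ (w k) ^ 2 * (6 * (x k) ^ 2 + 4 * x k * w k + (w k) ^ 2) := by
        apply mul_nonneg (by positivity)
        nlinarith [sq_nonneg (2 * x k + w k), sq_nonneg (x k)]
      nlinarith
    · intro s
      unfold fi
      rw [gi_inner, norm_add_sq_real, norm_smul, real_inner_smul_right, mul_pow, Real.norm_eq_abs,
        sq_abs]
      simp only [PiLp.add_apply, PiLp.smul_apply, smul_eq_mul]
      ring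
  lower := by
    intro x
    unfold fi
    have : 0 ≤ (x k) ^ 4 := by positivity
    linarith
  zero := by
    simp [fi]
  pos := by
    intro x hx
    rw [gi_inner, real_inner_self_eq_norm_sq]
    have h1 : 4 * x k ^ 3 * x k = 4 * (x k) ^ 4 := by ring
    rw [h1]
    have h2 : fi k x = ‖x‖ ^ 2 + (x k) ^ 4 := rfl
    have h3 : 0 ≤ (x k) ^ 4 := by positivity
    have h4 : 0 ≤ ‖x‖ ^ 2 := by positivity
    linarith

theorem not_elli {j k : Fin n} (hjk : j ≠ k) : ¬ IsEllipsoid (Body (fi k)) := by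
  refine (goodi k).not_isEllipsoid (p := EuclideanSpace.single j (1 : ℝ))
    (q := EuclideanSpace.single k (1 : ℝ)) ?_ ?_ ?_
  · intro x
    simp only [fi, norm_neg, PiLp.neg_apply]
    ring
  · simp
  · intro a b
    unfold fi
    have h1 : ⟪EuclideanSpace.single j (1 : ℝ), EuclideanSpace.single k (1 : ℝ)⟫ = (0 : ℝ) := by
      rw [single_inner]
      simp [hjk]
    rw [norm_add_sq_real, norm_smul, norm_smul, real_inner_smul_left, real_inner_smul_right, h1]
    simp [hjk.symm, mul_pow]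

/-! ### lines through boundary points -/

lemma lineThrough_pt (x v : Euc n) (t : ℝ) :
    (lineThrough x v).1 + t • (lineThrough x v).2 = x + (t - ⟪x, v⟫) • v := by
  unfold lineThrough
  simp only
  rw [sub_smul]
  abel

lemma lineThrough_perp (x v : Euc n) (hv : ‖v‖ = 1) :
    ⟪(lineThrough x v).1, (lineThrough x v).2⟫ = 0 := by
  unfold lineThrough
  simp only
  rw [inner_sub_left, real_inner_smul_left, real_inner_self_eq_norm_sq, hv]
  ring

/-- a line that leaves (or enters) the body transversally at a boundary point -/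
lemma lineThrough_mem {f : Euc n → ℝ} {g : Euc n → Euc n} (h : Good f g) {x v : Euc n}
    (hx : f x = 1) (hv : ‖v‖ = 1) (hg : ⟪g x, v⟫ ≠ 0) : lineThrough x v ∈ lines (Body f) := by
  refine ⟨hv, lineThrough_perp x v hv, ?_⟩
  rw [h.interior_body]
  rcases lt_or_gt_of_ne hg with h1 | h1
  · obtain ⟨s, hs0, hs⟩ := h.exists_lt h1
    refine ⟨⟪x, v⟫ + s, ?_⟩
    rw [lineThrough_pt, add_sub_cancel_left]
    rw [hx] at hs
    exact hs
  · have h2 : ⟪g x, -v⟫ < 0 := by
      rw [inner_neg_right]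
      linarith
    obtain ⟨s, hs0, hs⟩ := h.exists_lt h2
    refine ⟨⟪x, v⟫ - s, ?_⟩
    rw [lineThrough_pt, sub_sub_cancel_left, neg_smul, ← smul_neg]
    rw [hx] at hs
    exact hs

lemma exit_lineThrough {f : Euc n → ℝ} {g : Euc n → Euc n} (h : Good f g) {x v : Euc n}
    (hx : f x = 1) (hv : ‖v‖ = 1) (hg : 0 < ⟪g x, v⟫) :
    exitPoint (Body f) (lineThrough x v) = x := by
  unfold exitPoint
  have h1 : IsGreatest {t : ℝ | (lineThrough x v).1 + t • (lineThrough x v).2 ∈ Body f} ⟪x, v⟫ := by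
    constructor
    · show (lineThrough x v).1 + ⟪x, v⟫ • (lineThrough x v).2 ∈ Body f
      rw [lineThrough_pt, sub_self, zero_smul, add_zero]
      exact hx.le
    · intro t ht
      have ht' : (lineThrough x v).1 + t • (lineThrough x v).2 ∈ Body f := ht
      rw [lineThrough_pt] at ht'
      have h2 : f (x + (t - ⟪x, v⟫) • v) ≤ 1 := ht'
      have h3 := h.ge x (x + (t - ⟪x, v⟫) • v)
      rw [add_sub_cancel_left, real_inner_smul_right, hx] at h3
      by_contra hc
      push Not at hc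
      have h4 : 0 < (t - ⟪x, v⟫) * ⟪g x, v⟫ := mul_pos (by linarith) hg
      have h5 : 0 ≤ ‖(t - ⟪x, v⟫) • v‖ ^ 2 := by positivity
      linarith
  rw [h1.csSup_eq, lineThrough_pt, sub_self, zero_smul, add_zero]

lemma lineThrough_self {l : Euc n × Euc n} (hv : ‖l.2‖ = 1) (hp : ⟪l.1, l.2⟫ = 0) (t : ℝ) :
    lineThrough (l.1 + t • l.2) l.2 = l := by
  unfold lineThrough
  rw [inner_add_left, hp, real_inner_smul_left, real_inner_self_eq_norm_sq, hv]
  ext1
  · simp
  · rfl

/-- the exit point of a line -/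
lemma exists_exit {f : Euc n → ℝ} {g : Euc n → Euc n} (h : Good f g) {l : Euc n × Euc n}
    (hl : l ∈ lines (Body f)) : ∃ x : Euc n, f x = 1 ∧ 0 < ⟪g x, l.2⟫ ∧ l = lineThrough x l.2 := by
  obtain ⟨hv, hp, t0, ht0⟩ := hl
  rw [h.interior_body] at ht0
  have ht0' : f (l.1 + t0 • l.2) < 1 := ht0
  have hcont : Continuous fun t : ℝ => l.1 + t • l.2 := by fun_prop
  have hclosed : IsClosed {t : ℝ | l.1 + t • l.2 ∈ Body f} := h.isClosed_body.preimage hcont
  have hbdd : BddAbove {t : ℝ | l.1 + t • l.2 ∈ Body f} := by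
    refine ⟨1, fun t ht => ?_⟩
    have h1 := h.norm_le_of_mem (show l.1 + t • l.2 ∈ Body f from ht)
    have h2 : ⟪l.1 + t • l.2, l.2⟫ = t := by
      rw [inner_add_left, hp, real_inner_smul_left, real_inner_self_eq_norm_sq, hv]
      ring
    have h3 := real_inner_le_norm (l.1 + t • l.2) l.2
    rw [h2, hv, mul_one] at h3
    linarith
  have hne : {t : ℝ | l.1 + t • l.2 ∈ Body f}.Nonempty := ⟨t0, ht0'.le⟩
  have hmem := hclosed.csSup_mem hne hbdd
  set t1 := sSup {t : ℝ | l.1 + t • l.2 ∈ Body f} with ht1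
  have hmem' : f (l.1 + t1 • l.2) ≤ 1 := hmem
  have h01 : t0 ≤ t1 := le_csSup hbdd ht0'.le
  have hx : f (l.1 + t1 • l.2) = 1 := by
    refine le_antisymm hmem' ?_
    by_contra hc
    push Not at hc
    have h4 : ∀ᶠ t : ℝ in 𝓝 t1, f (l.1 + t • l.2) < 1 :=
      ((h.continuous.comp hcont).tendsto t1).eventually (gt_mem_nhds hc)
    obtain ⟨δ, hδ, hs⟩ := Metric.eventually_nhds_iff.1 h4
    have h5 := hs (y := t1 + δ / 2) (by
      rw [Real.dist_eq, add_sub_cancel_left, abs_of_pos (by linarith)]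
      linarith)
    have h6 : t1 + δ / 2 ≤ t1 := le_csSup hbdd (show l.1 + (t1 + δ / 2) • l.2 ∈ Body f from h5.le)
    linarith
  refine ⟨l.1 + t1 • l.2, hx, ?_, (lineThrough_self hv hp t1).symm⟩
  have h7 : t0 < t1 := by
    refine lt_of_le_of_ne h01 fun h8 => ?_
    rw [h8, hx] at ht0'
    exact lt_irrefl _ ht0'
  have h8 := h.ge (l.1 + t1 • l.2) (l.1 + t0 • l.2)
  have e : l.1 + t0 • l.2 - (l.1 + t1 • l.2) = (t0 - t1) • l.2 := by
    rw [sub_smul]
    abel
  rw [e, real_inner_smul_right, hx] at h8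
  have h9 : 0 ≤ ‖(t0 - t1) • l.2‖ ^ 2 := by positivity
  have h10 : (t0 - t1) * ⟪g (l.1 + t1 • l.2), l.2⟫ < 0 := by linarith
  by_contra hc
  push Not at hc
  have := mul_nonneg_of_nonpos_of_nonpos (by linarith : t0 - t1 ≤ 0) hc
  linarith

/-- the reversed line -/
def rev (l : Euc n × Euc n) : Euc n × Euc n := (l.1, -l.2)

lemma rev_mem {Ω : Set (Euc n)} {l : Euc n × Euc n} (hl : l ∈ lines Ω) : rev l ∈ lines Ω := by
  obtain ⟨hv, hp, t0, ht0⟩ := hl
  refine ⟨by simpa [rev] using hv, by simp [rev, inner_neg_right, hp], -t0, ?_⟩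
  simpa [rev] using ht0

/-- the entry point of a line -/
lemma exists_entry {f : Euc n → ℝ} {g : Euc n → Euc n} (h : Good f g) {l : Euc n × Euc n}
    (hl : l ∈ lines (Body f)) : ∃ x : Euc n, f x = 1 ∧ ⟪g x, l.2⟫ < 0 ∧ l = lineThrough x l.2 := by
  obtain ⟨x, hx, hg, he⟩ := exists_exit h (rev_mem hl)
  refine ⟨x, hx, ?_, ?_⟩
  · have : ⟪g x, (rev l).2⟫ = -⟪g x, l.2⟫ := by
      unfold rev
      rw [inner_neg_right]
    rw [this] at hg
    linarith
  · have h1 : (rev l).1 = (lineThrough x (rev l).2).1 := congrArg Prod.fst he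
    unfold rev lineThrough at h1
    simp only [inner_neg_right, smul_neg, neg_smul, neg_neg] at h1
    ext1
    · unfold lineThrough
      exact h1
    · rfl

/-- the reflected direction -/
noncomputable def refl (g v : Euc n) : Euc n := v - (2 * ⟪v, ‖g‖⁻¹ • g⟫) • ‖g‖⁻¹ • g

lemma refl_inner {g v : Euc n} (hg : g ≠ 0) : ⟪g, refl g v⟫ = -⟪g, v⟫ := by
  have h0 : ‖g‖ ≠ 0 := norm_ne_zero_iff.2 hg
  unfold refl
  rw [inner_sub_right, real_inner_smul_right, real_inner_smul_right, real_inner_smul_right,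
    real_inner_self_eq_norm_sq, real_inner_comm g v]
  field_simp
  ring

lemma refl_norm {g v : Euc n} (hg : g ≠ 0) : ‖refl g v‖ = ‖v‖ := by
  have h0 : ‖g‖ ≠ 0 := norm_ne_zero_iff.2 hg
  have h1 : ‖refl g v‖ ^ 2 = ‖v‖ ^ 2 := by
    unfold refl
    rw [norm_sub_sq_real, real_inner_smul_right, norm_smul, norm_smul, real_inner_smul_right,
      norm_inv, norm_norm, mul_pow, Real.norm_eq_abs, sq_abs, inv_mul_cancel₀ h0]
    ring
  exact (sq_eq_sq₀ (norm_nonneg _) (norm_nonneg _)).1 h1

lemma refl_refl {g v : Euc n} (hg : g ≠ 0) : refl g (refl g v) = v := by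
  have h0 : ‖g‖ ≠ 0 := norm_ne_zero_iff.2 hg
  have h1 : ⟪refl g v, ‖g‖⁻¹ • g⟫ = -⟪v, ‖g‖⁻¹ • g⟫ := by
    rw [real_inner_smul_right, real_inner_smul_right, real_inner_comm, refl_inner hg,
      real_inner_comm g v]
    ring
  have h2 : refl g (refl g v) = refl g v - (2 * ⟪refl g v, ‖g‖⁻¹ • g⟫) • ‖g‖⁻¹ • g := rfl
  rw [h2, h1]
  unfold refl
  simp only [mul_neg, neg_smul, sub_neg_eq_add, sub_add_cancel]

lemma billiard_lineThrough {f : Euc n → ℝ} {g : Euc n → Euc n} (h : Good f g) {x v : Euc n}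
    (hx : f x = 1) (hv : ‖v‖ = 1) (hg : 0 < ⟪g x, v⟫) :
    billiardMap (Body f) (lineThrough x v) = lineThrough x (refl (g x) v) := by
  unfold billiardMap
  rw [exit_lineThrough h hx hv hg, h.outerNormal_eq hx]
  rfl

/-- the angular momentum -/
def am (i j : Fin n) (l : Euc n × Euc n) : ℝ := l.1 i * l.2 j - l.1 j * l.2 i

lemma am_lineThrough (i j : Fin n) (x v : Euc n) :
    am i j (lineThrough x v) = x i * v j - x j * v i := by
  unfold am lineThrough
  simp only [PiLp.sub_apply, PiLp.smul_apply, smul_eq_mul]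
  ring

lemma gi_apply {k i : Fin n} (hik : i ≠ k) (x : Euc n) : gi k x i = 2 * x i := by
  unfold gi
  simp [hik]

lemma am_refl {k i j : Fin n} (hik : i ≠ k) (hjk : j ≠ k) (x v : Euc n) :
    x i * refl (gi k x) v j - x j * refl (gi k x) v i = x i * v j - x j * v i := by
  unfold refl
  simp only [PiLp.sub_apply, PiLp.smul_apply, smul_eq_mul]
  rw [gi_apply hik, gi_apply hjk]
  ring

/-- the invariant hypersurface -/
def Si (i j k : Fin n) : Set (Euc n × Euc n) := lines (Body (fi k)) ∩ {l | am i j l = 1 / 4}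

theorem invariant_Si {i j k : Fin n} (hij : i ≠ j) (hik : i ≠ k) (hjk : j ≠ k) :
    IsInvariantHypersurface (Body (fi k)) (Si i j k) where
  nonempty := by
    refine ⟨((1 / 4 : ℝ) • EuclideanSpace.single i (1 : ℝ), EuclideanSpace.single j (1 : ℝ)),
      ⟨?_, ?_, 0, ?_⟩, ?_⟩
    · simp
    · simp only
      rw [real_inner_smul_left, single_inner]
      simp [hij]
    · rw [(goodi k).interior_body]
      show fi k _ < 1
      unfold fi
      rw [zero_smul, add_zero, norm_smul]
      simp [hik.symm]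
      norm_num
    · show am i j _ = 1 / 4
      unfold am
      simp [hij, hij.symm]
  subset := inter_subset_left
  closed := by
    refine ⟨{l | am i j l = 1 / 4}, ?_, rfl⟩
    apply isClosed_eq _ continuous_const
    unfold am
    fun_prop
  smooth := by
    intro l hl
    obtain ⟨hl1, hl2⟩ := hl
    have hl2' : am i j l = 1 / 4 := hl2
    have hcd : ContDiff ℝ ∞ (fun l : Euc n × Euc n => am i j l - 1 / 4) := by
      unfold am
      fun_prop
    refine ⟨fun l => am i j l - 1 / 4, hcd, ?_, (l.1, 0), ?_, ?_⟩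
    · refine Eventually.of_forall fun l' hl' => ?_
      constructor
      · rintro ⟨-, h2⟩
        have h2' : am i j l' = 1 / 4 := h2
        simp only
        linarith
      · intro h2
        refine ⟨hl', ?_⟩
        show am i j l' = 1 / 4
        simp only at h2
        linarith
    · refine ⟨?_, ?_⟩
      · simp only [inner_zero_right]
      · simp only [inner_zero_right, add_zero]
        exact hl1.2.1
    · have hd : HasFDerivAt (fun l : Euc n × Euc n => am i j l - 1 / 4)
          (fderiv ℝ (fun l : Euc n × Euc n => am i j l - 1 / 4) l) l :=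
        (hcd.differentiable (by simp)).differentiableAt.hasFDerivAt
      have hline : HasDerivAt (fun s : ℝ => l + s • ((l.1, 0) : Euc n × Euc n))
          ((l.1, 0) : Euc n × Euc n) 0 := by
        simpa using ((hasDerivAt_id (0 : ℝ)).smul_const ((l.1, 0) : Euc n × Euc n)).const_add l
      have hc : HasDerivAt (fun s : ℝ => am i j (l + s • ((l.1, 0) : Euc n × Euc n)) - 1 / 4)
          (fderiv ℝ (fun l : Euc n × Euc n => am i j l - 1 / 4) l (l.1, 0)) 0 :=
        HasFDerivAt.comp_hasDerivAt (x := (0 : ℝ))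
          (f := fun s : ℝ => l + s • ((l.1, 0) : Euc n × Euc n))
          (l := fun l : Euc n × Euc n => am i j l - 1 / 4) (by simpa using hd) hline
      have e : (fun s : ℝ => am i j (l + s • ((l.1, 0) : Euc n × Euc n)) - 1 / 4) =
          fun s => (1 + s) * am i j l - 1 / 4 := by
        funext s
        unfold am
        simp only [Prod.fst_add, Prod.smul_fst, Prod.snd_add, Prod.smul_snd, PiLp.add_apply,
          PiLp.smul_apply, smul_eq_mul, smul_zero, add_zero]
        ring
      rw [e] at hc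
      have hc2 : HasDerivAt (fun s : ℝ => (1 + s) * am i j l - 1 / 4) (am i j l) 0 := by
        have := (((hasDerivAt_id (0 : ℝ)).const_add 1).mul_const (am i j l)).sub_const (1 / 4)
        simpa using this
      rw [hc.unique hc2, hl2']
      norm_num
  invariant := by
    have hG := goodi k
    ext l
    constructor
    · rintro ⟨l0, ⟨hl1, hl2⟩, rfl⟩
      obtain ⟨x, hx, hg, he⟩ := exists_exit hG hl1
      have hv : ‖l0.2‖ = 1 := hl1.1
      have hgne := hG.g_ne_zero hx
      have hl2' : am i j l0 = 1 / 4 := hl2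
      rw [he] at hl2' ⊢
      rw [am_lineThrough] at hl2'
      rw [billiard_lineThrough hG hx hv hg]
      refine ⟨lineThrough_mem hG hx (by rw [refl_norm hgne, hv]) ?_, ?_⟩
      · rw [refl_inner hgne]
        linarith
      · show am i j _ = 1 / 4
        rw [am_lineThrough, am_refl hik hjk]
        exact hl2'
    · rintro ⟨hl1, hl2⟩
      obtain ⟨x, hx, hg, he⟩ := exists_entry hG hl1
      have hv : ‖l.2‖ = 1 := hl1.1
      have hgne := hG.g_ne_zero hx
      have hl2' : am i j l = 1 / 4 := hl2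
      have hg' : 0 < ⟪gi k x, refl (gi k x) l.2⟫ := by
        rw [refl_inner hgne]
        linarith
      have hn : ‖refl (gi k x) l.2‖ = 1 := by rw [refl_norm hgne, hv]
      refine ⟨lineThrough x (refl (gi k x) l.2), ⟨lineThrough_mem hG hx hn hg'.ne', ?_⟩, ?_⟩
      · show am i j _ = 1 / 4
        rw [am_lineThrough, am_refl hik hjk, ← am_lineThrough, ← he]
        exact hl2'
      · rw [billiard_lineThrough hG hx hn hg', refl_refl hgne, ← he]

theorem q1 (n : ℕ) (hn : 3 ≤ n) : ∃ Ω : Set (Euc n), IsTable Ω ∧ ¬ IsEllipsoid Ω ∧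
    ∃ S : Set (Euc n × Euc n), IsInvariantHypersurface Ω S := by
  have h01 : (⟨0, by omega⟩ : Fin n) ≠ ⟨1, by omega⟩ := by simp
  have h02 : (⟨0, by omega⟩ : Fin n) ≠ ⟨2, by omega⟩ := by simp
  have h12 : (⟨1, by omega⟩ : Fin n) ≠ ⟨2, by omega⟩ := by simp
  exact ⟨Body (fi ⟨2, by omega⟩), (goodi _).isTable, not_elli h02, _, invariant_Si h01 h02 h12⟩

end Pool.Agent.R318.MB
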